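import Pool.Agent.Run7.h420.TM.Stm

/-!
# Piece KAZ of helper420's project TM
-/

set_option autoImplicit false

namespace Pool.Agent.Run7.h420.TM

open MeasureTheory Filter Topology Set

section KAZ

variable {G : Type} [Group G] {H : Type} [NormedAddCommGroup H] [InnerProductSpace ℂ H]

/-- the invariant vectors -/
def kazInv (π : G →* (H ≃ₗᵢ[ℂ] H)) : Submodule ℂ H where
  carrier := {v | ∀ g, π g v = v}
  add_mem' := by
    intro a b ha hb g
    rw [map_add, ha g, hb g]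
  zero_mem' := by
    intro g
    rw [map_zero]
  smul_mem' := by
    intro c a ha g
    rw [map_smul, ha g]

lemma mem_kazInv (π : G →* (H ≃ₗᵢ[ℂ] H)) (v : H) : v ∈ kazInv π ↔ ∀ g, π g v = v := Iff.rfl

lemma kaz_inv_apply (π : G →* (H ≃ₗᵢ[ℂ] H)) (g : G) (b : H) : π g⁻¹ (π g b) = b := by
  have h : (π g⁻¹ * π g) b = b := by
    rw [← map_mul, inv_mul_cancel, map_one]
    rfl
  exact h

lemma kaz_apply_inv (π : G →* (H ≃ₗᵢ[ℂ] H)) (g : G) (b : H) : π g (π g⁻¹ b) = b := by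
  have h : (π g * π g⁻¹) b = b := by
    rw [← map_mul, mul_inv_cancel, map_one]
    rfl
  exact h

lemma kaz_perp (π : G →* (H ≃ₗᵢ[ℂ] H)) (g : G) (b : H) (hb : b ∈ (kazInv π)ᗮ) : π g b ∈ (kazInv π)ᗮ := by
  rw [Submodule.mem_orthogonal] at hb ⊢
  intro a ha
  have h1 := hb a ha
  have h2 : inner ℂ (π g a) (π g b) = inner ℂ a b := (π g).inner_map_map a b
  rw [ha g] at h2
  rw [h2, h1]

/-- the restriction to the orthogonal complement -/
noncomputable def kazRes (π : G →* (H ≃ₗᵢ[ℂ] H)) : G →* ((kazInv π)ᗮ ≃ₗᵢ[ℂ] (kazInv π)ᗮ) :=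
  MonoidHom.mk' (fun g =>
    { toFun := fun b => ⟨π g b, kaz_perp π g b b.2⟩
      map_add' := fun a b => Subtype.ext (by simp)
      map_smul' := fun c a => Subtype.ext (by simp)
      invFun := fun b => ⟨π g⁻¹ b, kaz_perp π g⁻¹ b b.2⟩
      left_inv := fun b => Subtype.ext (kaz_inv_apply π g b)
      right_inv := fun b => Subtype.ext (kaz_apply_inv π g b)
      norm_map' := fun b => (π g).norm_map b })
    (by
      intro a b
      apply LinearIsometryEquiv.ext
      intro x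
      apply Subtype.ext
      show π (a * b) x = π a (π b x)
      rw [map_mul]
      rfl)

lemma kazRes_apply (π : G →* (H ≃ₗᵢ[ℂ] H)) (g : G) (b : (kazInv π)ᗮ) :
    ((kazRes π g b : (kazInv π)ᗮ) : H) = π g (b : H) := rfl

end KAZ

theorem t_KAZ : S_KAZ := by
  intro G _ hT
  obtain ⟨S, ε, hε, h⟩ := hT
  refine ⟨S, ε / 4, by positivity, ?_⟩
  intro H _ _ _ π v hv hS
  have hclosed : IsClosed ((kazInv π : Submodule ℂ H) : Set H) := by
    have : ((kazInv π : Submodule ℂ H) : Set H) = ⋂ g : G, {v | π g v = v} := by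
      ext x
      simp [mem_kazInv]
    rw [this]
    exact isClosed_iInter fun g => isClosed_eq (π g).continuous continuous_id
  haveI : CompleteSpace (kazInv π) := hclosed.completeSpace_coe
  obtain ⟨u, hu⟩ : ∃ u : H, u = (kazInv π).starProjection v := ⟨_, rfl⟩
  have hu0 : u ∈ kazInv π := by
    rw [hu]
    exact Submodule.starProjection_apply_mem _ v
  have hw : v - u ∈ (kazInv π)ᗮ := by
    rw [hu]
    exact Submodule.sub_starProjection_mem_orthogonal v
  refine ⟨u, hu0, ?_⟩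
  by_contra hcon
  have hc : 1 / 4 ≤ ‖v - u‖ := not_lt.1 hcon
  have hpos : 0 < ‖v - u‖ := by linarith
  obtain ⟨z, hz⟩ : ∃ z : (kazInv π)ᗮ, z = ((‖v - u‖⁻¹ : ℝ) : ℂ) • (⟨v - u, hw⟩ : (kazInv π)ᗮ) := ⟨_, rfl⟩
  have hnz : ‖z‖ = 1 := by
    rw [hz, norm_smul, Complex.norm_real, Real.norm_of_nonneg (by positivity)]
    show ‖v - u‖⁻¹ * ‖v - u‖ = 1
    exact inv_mul_cancel₀ hpos.ne'
  have hsz : ∀ s ∈ S, ‖kazRes π s z - z‖ < ε := by
    intro s hs
    have e1 : ‖kazRes π s z - z‖ = ‖v - u‖⁻¹ * ‖π s v - v‖ := by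
      rw [hz, map_smul, ← smul_sub, norm_smul, Complex.norm_real, Real.norm_of_nonneg (by positivity)]
      congr 1
      show ‖π s (v - u) - (v - u)‖ = ‖π s v - v‖
      rw [map_sub, hu0 s]
      congr 1
      abel
    rw [e1]
    have e2 := hS s hs
    have e3 : ‖v - u‖⁻¹ ≤ 4 := by
      rw [inv_le_comm₀ hpos (by norm_num)]
      linarith
    calc ‖v - u‖⁻¹ * ‖π s v - v‖ ≤ 4 * ‖π s v - v‖ := mul_le_mul_of_nonneg_right e3 (norm_nonneg _)
      _ < 4 * (ε / 4) := mul_lt_mul_of_pos_left e2 (by norm_num)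
      _ = ε := by ring
  obtain ⟨y, hy0, hy⟩ := h ((kazInv π)ᗮ : Submodule ℂ H) (kazRes π) ⟨z, hnz, hsz⟩
  apply hy0
  have h1 : (y : H) ∈ kazInv π := by
    intro g
    have := congrArg (Subtype.val) (hy g)
    rw [kazRes_apply] at this
    exact this
  have h2 : inner ℂ (y : H) (y : H) = 0 := (Submodule.mem_orthogonal _ _).1 y.2 y h1
  have h3 : (y : H) = 0 := inner_self_eq_zero.1 h2
  exact Subtype.ext h3

end Pool.Agent.Run7.h420.TM
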